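import Mathlib

/-!
# Graded submodules of `k[Y₀,Y₁]^q` (task A3 of h924_tasks)
-/

set_option autoImplicit false

open MvPolynomial Module

namespace Pool.Agent.H25R2.Split2

variable {k : Type} [Field k] {q : ℕ}

/-- vectors of forms of degree `n` -/
def H (k : Type) [Field k] (q n : ℕ) : Submodule k (Fin q → MvPolynomial (Fin 2) k) where
  carrier := {z | ∀ i, (z i).IsHomogeneous n}
  zero_mem' := fun _ => isHomogeneous_zero _ _ _
  add_mem' := fun ha hb i => (ha i).add (hb i)
  smul_mem' := fun c z hz i => by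
    have := (isHomogeneous_C (Fin 2) c).mul (hz i)
    rw [zero_add] at this
    rw [Pi.smul_apply, smul_eq_C_mul]
    exact this

theorem mem_H {n : ℕ} {z : Fin q → MvPolynomial (Fin 2) k} :
    z ∈ H k q n ↔ ∀ i, (z i).IsHomogeneous n := Iff.rfl

/-- multiplication by a variable -/
noncomputable def mX (k : Type) [Field k] (q : ℕ) (i : Fin 2) :
    (Fin q → MvPolynomial (Fin 2) k) →ₗ[k] (Fin q → MvPolynomial (Fin 2) k) where
  toFun z := (X i : MvPolynomial (Fin 2) k) • z
  map_add' := smul_add _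
  map_smul' _ _ := smul_comm _ _ _

theorem mX_apply (i : Fin 2) (z : Fin q → MvPolynomial (Fin 2) k) :
    mX k q i z = (X i : MvPolynomial (Fin 2) k) • z := rfl

theorem mX_inj (i : Fin 2) : Function.Injective (mX k q i) := by
  intro z w h
  funext j
  have h1 := congrFun h j
  simp only [mX_apply, Pi.smul_apply, smul_eq_mul] at h1
  exact mul_left_cancel₀ (X_ne_zero i) h1

/-- coefficients -/
noncomputable def cf (k : Type) [Field k] (q n : ℕ) :
    (Fin q → MvPolynomial (Fin 2) k) →ₗ[k] (Fin q → Fin (n + 1) → k) where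
  toFun z := fun i a => coeff (Finsupp.single 0 a.1 + Finsupp.single 1 (n - a.1)) (z i)
  map_add' z w := by
    funext i a
    simp
  map_smul' c z := by
    funext i a
    simp

theorem deg_eq (d : Fin 2 →₀ ℕ) : Finsupp.weight (1 : Fin 2 → ℕ) d = d 0 + d 1 := by
  rw [Finsupp.weight_apply, Finsupp.sum_fintype _ _ (by simp)]
  simp

theorem cf_inj (n : ℕ) (z : Fin q → MvPolynomial (Fin 2) k) (hz : z ∈ H k q n)
    (h : cf k q n z = 0) : z = 0 := by
  funext i
  ext d
  rw [Pi.zero_apply, coeff_zero]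
  by_contra hne
  have h1 : Finsupp.weight (1 : Fin 2 → ℕ) d = n := hz i hne
  rw [deg_eq] at h1
  have h2 : Finsupp.single 0 (d 0) + Finsupp.single 1 (n - d 0) = d := by
    ext j
    fin_cases j
    · simp
    · simp; omega
  have h3 := congrFun (congrFun h i) ⟨d 0, by omega⟩
  simp only [cf, LinearMap.coe_mk, AddHom.coe_mk, h2, Pi.zero_apply] at h3
  exact hne h3

theorem H_fin (n : ℕ) (S : Submodule k (Fin q → MvPolynomial (Fin 2) k)) (hS : S ≤ H k q n) :
    Module.Finite k S ∧ finrank k S ≤ q * (n + 1) := by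
  have hinj : Function.Injective ((cf k q n).comp S.subtype) := by
    rw [← LinearMap.ker_eq_bot, LinearMap.ker_eq_bot']
    rintro ⟨z, hz⟩ h
    have := cf_inj n z (hS hz) h
    exact Subtype.ext this
  have h1 : Module.Finite k S := Module.Finite.of_injective _ hinj
  refine ⟨h1, ?_⟩
  have h2 := LinearMap.finrank_le_finrank_of_injective hinj
  simpa [Module.finrank_pi_fintype] using h2

theorem hom_cancel {n : ℕ} {i : Fin 2} {p : MvPolynomial (Fin 2) k}
    (h : (X i * p).IsHomogeneous (n + 1)) : p.IsHomogeneous n := by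
  intro d hd
  have h1 := h (d := Finsupp.single i 1 + d) (by rw [coeff_X_mul]; exact hd)
  rw [map_add] at h1
  have h2 : Finsupp.weight (1 : Fin 2 → ℕ) (Finsupp.single i 1) = 1 := by
    rw [Finsupp.weight_single]
    simp
  rw [h2] at h1
  omega

theorem hom_zero {i : Fin 2} {p : MvPolynomial (Fin 2) k}
    (h : (X i * p).IsHomogeneous 0) : p = 0 := by
  ext d
  rw [coeff_zero]
  by_contra hd
  have h1 := h (d := Finsupp.single i 1 + d) (by rw [coeff_X_mul]; exact hd)
  rw [map_add] at h1
  have h2 : Finsupp.weight (1 : Fin 2 → ℕ) (Finsupp.single i 1) = 1 := by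
    rw [Finsupp.weight_single]
    simp
  rw [h2] at h1
  omega

theorem H_mX {n : ℕ} {z : Fin q → MvPolynomial (Fin 2) k} (hz : z ∈ H k q n) (i : Fin 2) :
    mX k q i z ∈ H k q (n + 1) := by
  intro j
  have h1 := (isHomogeneous_X k i).mul (hz j)
  rw [add_comm 1 n] at h1
  exact h1

/-- the monomial -/
noncomputable def mon (k : Type) [Field k] (a b : ℕ) : MvPolynomial (Fin 2) k := X 0 ^ a * X 1 ^ b

/-- the saturation -/
def Sat (B : ℕ → Submodule k (Fin q → MvPolynomial (Fin 2) k)) (n : ℕ) :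
    Submodule k (Fin q → MvPolynomial (Fin 2) k) where
  carrier := {z | z ∈ H k q n ∧ ∃ J, ∀ j ≥ J, ∀ a b, a + b = j → mon k a b • z ∈ B (n + j)}
  zero_mem' := ⟨Submodule.zero_mem _, 0, fun j _ a b _ => by
    rw [smul_zero]; exact Submodule.zero_mem _⟩
  add_mem' := by
    rintro z w ⟨hz, J, hJ⟩ ⟨hw, J', hJ'⟩
    refine ⟨Submodule.add_mem _ hz hw, max J J', fun j hj a b hab => ?_⟩
    rw [smul_add]
    exact Submodule.add_mem _ (hJ j (le_trans (le_max_left _ _) hj) a b hab)
      (hJ' j (le_trans (le_max_right _ _) hj) a b hab)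
  smul_mem' := by
    rintro c z ⟨hz, J, hJ⟩
    refine ⟨Submodule.smul_mem _ _ hz, J, fun j hj a b hab => ?_⟩
    rw [smul_comm]
    exact Submodule.smul_mem _ _ (hJ j hj a b hab)

section Satsec

variable {B : ℕ → Submodule k (Fin q → MvPolynomial (Fin 2) k)}
  (hom : ∀ n, ∀ z ∈ B n, ∀ i, (z i).IsHomogeneous n)
  (hX : ∀ (i : Fin 2) n z, z ∈ B n → (X i : MvPolynomial (Fin 2) k) • z ∈ B (n + 1))

include hX in
theorem B_mon (a b n : ℕ) (z : Fin q → MvPolynomial (Fin 2) k) (hz : z ∈ B n) :
    mon k a b • z ∈ B (n + (a + b)) := by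
  induction a with
  | zero =>
    induction b with
    | zero => simpa [mon] using hz
    | succ b ih =>
      have h1 := hX 1 _ _ ih
      rw [← mul_smul] at h1
      have h2 : (X 1 : MvPolynomial (Fin 2) k) * mon k 0 b = mon k 0 (b + 1) := by
        unfold mon; ring
      rw [h2] at h1
      exact h1
  | succ a ih =>
    have h1 := hX 0 _ _ ih
    rw [← mul_smul] at h1
    have h2 : (X 0 : MvPolynomial (Fin 2) k) * mon k a b = mon k (a + 1) b := by
      unfold mon; ring
    rw [h2] at h1
    rw [show n + (a + 1 + b) = n + (a + b) + 1 by ring]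
    exact h1

include hom hX in
theorem B_le_Sat (n : ℕ) : B n ≤ Sat B n := by
  intro z hz
  refine ⟨hom n z hz, 0, fun j _ a b hab => ?_⟩
  rw [← hab]
  exact B_mon hX a b n z hz

theorem Sat_le_H (n : ℕ) : Sat B n ≤ H k q n := fun _ hz => hz.1

include hX in
theorem Sat_mX {n : ℕ} {z : Fin q → MvPolynomial (Fin 2) k} (hz : z ∈ Sat B n) (i : Fin 2) :
    mX k q i z ∈ Sat B (n + 1) := by
  obtain ⟨h1, J, hJ⟩ := hz
  refine ⟨H_mX h1 i, J, fun j hj a b hab => ?_⟩
  have h2 := hX i _ _ (hJ j hj a b hab)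
  rw [smul_comm, ← mX_apply] at h2
  rw [show n + 1 + j = n + j + 1 by ring]
  exact h2

theorem Sat_cancel {n : ℕ} {z : Fin q → MvPolynomial (Fin 2) k}
    (h0 : mX k q 0 z ∈ Sat B (n + 1)) (h1 : mX k q 1 z ∈ Sat B (n + 1)) :
    z ∈ Sat B n := by
  obtain ⟨a0, J0, hJ0⟩ := h0
  obtain ⟨a1, J1, hJ1⟩ := h1
  refine ⟨fun j => hom_cancel (a0 j), max J0 J1 + 1, fun j hj a b hab => ?_⟩
  obtain ⟨j', rfl⟩ : ∃ j', j = j' + 1 := ⟨j - 1, by omega⟩
  have hj0 : J0 ≤ j' := by have := le_max_left J0 J1; omega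
  have hj1 : J1 ≤ j' := by have := le_max_right J0 J1; omega
  rcases Nat.eq_zero_or_pos a with ha | ha
  · subst ha
    obtain ⟨b', rfl⟩ : ∃ b', b = b' + 1 := ⟨b - 1, by omega⟩
    have h2 := hJ1 j' hj1 0 b' (by omega)
    rw [mX_apply, ← mul_smul] at h2
    have h3 : mon k 0 b' * (X 1 : MvPolynomial (Fin 2) k) = mon k 0 (b' + 1) := by
      unfold mon; ring
    rw [h3] at h2
    rw [show n + (j' + 1) = n + 1 + j' by ring]
    exact h2
  · obtain ⟨a', rfl⟩ : ∃ a', a = a' + 1 := ⟨a - 1, by omega⟩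
    have h2 := hJ0 j' hj0 a' b (by omega)
    rw [mX_apply, ← mul_smul] at h2
    have h3 : mon k a' b * (X 0 : MvPolynomial (Fin 2) k) = mon k (a' + 1) b := by
      unfold mon; ring
    rw [h3] at h2
    rw [show n + (j' + 1) = n + 1 + j' by ring]
    exact h2

/-- the previous piece -/
noncomputable def prev (B : ℕ → Submodule k (Fin q → MvPolynomial (Fin 2) k)) :
    ℕ → Submodule k (Fin q → MvPolynomial (Fin 2) k)
  | 0 => ⊥
  | n + 1 => Sat B n

include hX in
theorem prev_iff (n : ℕ) (z : Fin q → MvPolynomial (Fin 2) k) :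
    z ∈ prev B n ↔ mX k q 0 z ∈ Sat B n ∧ mX k q 1 z ∈ Sat B n := by
  cases n with
  | zero =>
    constructor
    · intro h
      have h0 : z = 0 := h
      rw [h0, map_zero, map_zero]
      exact ⟨Submodule.zero_mem _, Submodule.zero_mem _⟩
    · rintro ⟨h, -⟩
      have h1 : z = 0 := by
        funext j
        exact hom_zero (h.1 j)
      rw [h1]
      exact Submodule.zero_mem _
  | succ n =>
    constructor
    · intro h
      exact ⟨Sat_mX hX h 0, Sat_mX hX h 1⟩
    · rintro ⟨h0, h1⟩
      exact Sat_cancel h0 h1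

include hX in
theorem inf_eq (n : ℕ) : (Sat B n).map (mX k q 0) ⊓ (Sat B n).map (mX k q 1) =
    (prev B n).map ((mX k q 0).comp (mX k q 1)) := by
  ext y
  constructor
  · rintro ⟨⟨u, hu, rfl⟩, ⟨w, hw, hwu⟩⟩
    have h1 : ∀ j, ∃ x, u j = X 1 * x := by
      intro j
      have h2 := congrFun hwu j
      simp only [mX_apply, Pi.smul_apply, smul_eq_mul] at h2
      have h3 : (X 1 : MvPolynomial (Fin 2) k) ∣ X 0 * u j := ⟨w j, h2.symm⟩
      rcases X_dvd_mul_iff.1 h3 with h4 | h4
      · rw [X_dvd_X] at h4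
        exact absurd h4 (by decide)
      · exact h4
    choose x hx using h1
    have hu' : u = mX k q 1 x := by
      funext j
      rw [mX_apply, Pi.smul_apply, smul_eq_mul]
      exact hx j
    have hw' : w = mX k q 0 x := by
      apply mX_inj (k := k) (q := q) 1
      rw [hwu, hu']
      simp only [mX_apply]
      rw [smul_comm]
    refine ⟨x, ?_, ?_⟩
    · rw [SetLike.mem_coe, prev_iff hX]
      exact ⟨hw' ▸ hw, hu' ▸ hu⟩
    · rw [LinearMap.comp_apply, ← hu']
  · rintro ⟨x, hx, rfl⟩
    rw [SetLike.mem_coe, prev_iff hX] at hx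
    refine ⟨⟨mX k q 1 x, hx.2, rfl⟩, ⟨mX k q 0 x, hx.1, ?_⟩⟩
    simp only [LinearMap.comp_apply, mX_apply]
    rw [smul_comm]

/-- the dimensions -/
noncomputable def sd (B : ℕ → Submodule k (Fin q → MvPolynomial (Fin 2) k)) (n : ℕ) : ℕ :=
  finrank k (Sat B n)

/-- the dimensions, shifted -/
noncomputable def pd (B : ℕ → Submodule k (Fin q → MvPolynomial (Fin 2) k)) (n : ℕ) : ℕ :=
  finrank k (prev B n)

theorem pd_zero : pd B 0 = 0 := by
  unfold pd prev
  exact finrank_bot k _

theorem pd_succ (n : ℕ) : pd B (n + 1) = sd B n := rfl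

theorem Sat_fin (n : ℕ) : Module.Finite k (Sat B n) := (H_fin n _ (Sat_le_H n)).1

theorem sd_le (n : ℕ) : sd B n ≤ q * (n + 1) := (H_fin n _ (Sat_le_H n)).2

theorem prev_fin (n : ℕ) : Module.Finite k (prev B n) := by
  cases n with
  | zero => exact inferInstanceAs (Module.Finite k (⊥ : Submodule k _))
  | succ n => exact Sat_fin n

theorem finrank_map (f : (Fin q → MvPolynomial (Fin 2) k) →ₗ[k] (Fin q → MvPolynomial (Fin 2) k))
    (hf : Function.Injective f) (S : Submodule k (Fin q → MvPolynomial (Fin 2) k)) :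
    finrank k (S.map f) = finrank k S :=
  (Submodule.equivMapOfInjective f hf S).finrank_eq.symm

/-- the part of degree `n + 1` generated by the part of degree `n` -/
noncomputable def gen (B : ℕ → Submodule k (Fin q → MvPolynomial (Fin 2) k)) (n : ℕ) :
    Submodule k (Fin q → MvPolynomial (Fin 2) k) :=
  (Sat B n).map (mX k q 0) ⊔ (Sat B n).map (mX k q 1)

include hX in
theorem gen_le (n : ℕ) : gen B n ≤ Sat B (n + 1) := by
  refine sup_le ?_ ?_
  · rintro y ⟨u, hu, rfl⟩
    exact Sat_mX hX hu 0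
  · rintro y ⟨u, hu, rfl⟩
    exact Sat_mX hX hu 1

include hX in
theorem gen_dim (n : ℕ) : finrank k (gen B n) + pd B n = 2 * sd B n := by
  have h1 := Sat_fin (B := B) n
  have h2 := Submodule.finrank_sup_add_finrank_inf_eq ((Sat B n).map (mX k q 0))
    ((Sat B n).map (mX k q 1))
  have h3 : Function.Injective ((mX k q 0).comp (mX k q 1)) := by
    rw [LinearMap.coe_comp]
    exact (mX_inj 0).comp (mX_inj 1)
  rw [inf_eq hX, finrank_map _ h3, finrank_map _ (mX_inj 0), finrank_map _ (mX_inj 1)] at h2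
  unfold gen pd sd
  omega

include hX in
theorem conv (n : ℕ) : 2 * sd B n ≤ sd B (n + 1) + pd B n := by
  have h1 := gen_dim hX n
  have h2 := Sat_fin (B := B) (n + 1)
  have h3 : finrank k (gen B n) ≤ sd B (n + 1) := Submodule.finrank_mono (gen_le hX n)
  omega

include hX in
theorem pd_le (n : ℕ) : pd B n ≤ sd B n := by
  cases n with
  | zero => rw [pd_zero]; exact Nat.zero_le _
  | succ n =>
    rw [pd_succ]
    have h2 := Sat_fin (B := B) (n + 1)
    have h3 : (Sat B n).map (mX k q 0) ≤ Sat B (n + 1) := le_sup_left.trans (gen_le hX n)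
    have h4 := Submodule.finrank_mono h3
    rw [finrank_map _ (mX_inj 0)] at h4
    exact h4

/-- the increments -/
noncomputable def inc (B : ℕ → Submodule k (Fin q → MvPolynomial (Fin 2) k)) (n : ℕ) : ℕ :=
  sd B n - pd B n

include hX in
theorem inc_mono : Monotone (inc B) := by
  refine monotone_nat_of_le_succ fun n => ?_
  have h1 := conv hX n
  have h2 := pd_le hX n
  have h3 := pd_le hX (n + 1)
  rw [pd_succ] at h3
  unfold inc
  rw [pd_succ]
  omega

include hX in
theorem sum_inc (n : ℕ) : ∑ j ∈ Finset.range (n + 1), inc B j = sd B n := by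
  induction n with
  | zero => simp [inc, pd_zero]
  | succ n ih =>
    rw [Finset.sum_range_succ, ih]
    have h3 := pd_le hX (n + 1)
    rw [pd_succ] at h3
    unfold inc
    rw [pd_succ]
    omega

include hX in
theorem inc_le (n : ℕ) : inc B n ≤ q := by
  by_contra hcon
  push Not at hcon
  have h1 : ∀ t, t * (q + 1) ≤ sd B (n + t) := by
    intro t
    induction t with
    | zero => simp
    | succ t ih =>
      have h2 : inc B n ≤ inc B (n + t + 1) := inc_mono hX (by omega)
      have h3 := pd_le hX (n + t + 1)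
      rw [pd_succ] at h3
      have h4 : inc B (n + t + 1) = sd B (n + t + 1) - sd B (n + t) := rfl
      have h5 : (t + 1) * (q + 1) = t * (q + 1) + (q + 1) := by ring
      have h6 : sd B (n + (t + 1)) = sd B (n + t + 1) := rfl
      rw [h5, h6]
      omega
  have h2 := h1 (q * (n + 1) + 1)
  have h3 := sd_le (B := B) (n + (q * (n + 1) + 1))
  have h4 := h2.trans h3
  nlinarith

include hX in
/-- generators -/
theorem gens (n : ℕ) : ∃ E : Finset (Fin q → MvPolynomial (Fin 2) k), E.card ≤ inc B n ∧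
    ∀ z ∈ Sat B n, z ∈ Submodule.span (MvPolynomial (Fin 2) k)
      (E : Set (Fin q → MvPolynomial (Fin 2) k)) := by
  classical
  -- a basis of a finite dimensional subspace
  have hbas : ∀ S : Submodule k (Fin q → MvPolynomial (Fin 2) k), Module.Finite k S →
      ∃ E : Finset (Fin q → MvPolynomial (Fin 2) k), E.card ≤ finrank k S ∧
        S ≤ Submodule.span k (E : Set (Fin q → MvPolynomial (Fin 2) k)) := by
    intro S hS
    refine ⟨Finset.univ.image (fun i => ((finBasis k S i : S) :
      Fin q → MvPolynomial (Fin 2) k)), ?_, ?_⟩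
    · refine Finset.card_image_le.trans ?_
      simp
    · intro z hz
      have h1 := (finBasis k S).sum_repr ⟨z, hz⟩
      have h2 : z = ∑ i, (finBasis k S).repr ⟨z, hz⟩ i • ((finBasis k S i : S) :
          Fin q → MvPolynomial (Fin 2) k) := by
        have h3 := congrArg (fun w : S => (w : Fin q → MvPolynomial (Fin 2) k)) h1
        simp only [Submodule.coe_sum, Submodule.coe_smul] at h3
        exact h3.symm
      rw [h2]
      refine Submodule.sum_mem _ fun i _ => Submodule.smul_mem _ _ (Submodule.subset_span ?_)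
      rw [Finset.coe_image]
      exact ⟨i, by simp, rfl⟩
  have hks : ∀ E : Finset (Fin q → MvPolynomial (Fin 2) k), ∀ z ∈ Submodule.span k
      (E : Set (Fin q → MvPolynomial (Fin 2) k)), z ∈ Submodule.span (MvPolynomial (Fin 2) k)
      (E : Set (Fin q → MvPolynomial (Fin 2) k)) := by
    intro E z hz
    exact Submodule.span_subset_span k (MvPolynomial (Fin 2) k) _ hz
  induction n with
  | zero =>
    obtain ⟨E, h1, h2⟩ := hbas (Sat B 0) (Sat_fin 0)
    refine ⟨E, ?_, fun z hz => hks E z (h2 hz)⟩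
    unfold inc
    rw [pd_zero]
    exact h1
  | succ n ih =>
    obtain ⟨E, hE, hspan⟩ := ih
    obtain ⟨C, hC⟩ := Submodule.exists_isCompl (gen B n)
    have hfin1 := Sat_fin (B := B) (n + 1)
    have hfin : Module.Finite k (C ⊓ Sat B (n + 1) : Submodule k _) :=
      Submodule.finiteDimensional_inf_right _ _
    obtain ⟨E', hE', hspan'⟩ := hbas (C ⊓ Sat B (n + 1)) hfin
    have hsup : gen B n ⊔ (C ⊓ Sat B (n + 1)) = Sat B (n + 1) := by
      rw [← sup_inf_assoc_of_le C (gen_le hX n), hC.sup_eq_top, top_inf_eq]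
    have hinf : gen B n ⊓ (C ⊓ Sat B (n + 1)) = ⊥ := by
      rw [← inf_assoc, hC.inf_eq_bot, bot_inf_eq]
    have hgfin : Module.Finite k (gen B n) :=
      (H_fin (n + 1) _ ((gen_le hX n).trans (Sat_le_H (n + 1)))).1
    have hdim := Submodule.finrank_sup_add_finrank_inf_eq (gen B n) (C ⊓ Sat B (n + 1))
    rw [hsup, hinf, finrank_bot] at hdim
    have hg := gen_dim hX n
    have hc := conv hX n
    have hp := pd_le hX n
    have hp1 := pd_le hX (n + 1)
    rw [pd_succ] at hp1
    have hsd : finrank k (Sat B (n + 1)) = sd B (n + 1) := rfl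
    refine ⟨E ∪ E', ?_, ?_⟩
    · refine (Finset.card_union_le _ _).trans ?_
      unfold inc at hE ⊢
      rw [pd_succ]
      omega
    · intro z hz
      rw [← hsup] at hz
      obtain ⟨y, hy, w, hw, rfl⟩ := Submodule.mem_sup.1 hz
      refine Submodule.add_mem _ ?_ ?_
      · unfold gen at hy
        obtain ⟨y0, ⟨u0, hu0, rfl⟩, y1, ⟨u1, hu1, rfl⟩, rfl⟩ := Submodule.mem_sup.1 hy
        have hm : Submodule.span (MvPolynomial (Fin 2) k)
            (E : Set (Fin q → MvPolynomial (Fin 2) k)) ≤
            Submodule.span (MvPolynomial (Fin 2) k)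
            ((E ∪ E' : Finset _) : Set (Fin q → MvPolynomial (Fin 2) k)) := by
          refine Submodule.span_mono ?_
          rw [Finset.coe_union]
          exact Set.subset_union_left
        refine Submodule.add_mem _ ?_ ?_
        · exact Submodule.smul_mem _ _ (hm (hspan u0 hu0))
        · exact Submodule.smul_mem _ _ (hm (hspan u1 hu1))
      · have hm : Submodule.span (MvPolynomial (Fin 2) k)
            (E' : Set (Fin q → MvPolynomial (Fin 2) k)) ≤
            Submodule.span (MvPolynomial (Fin 2) k)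
            ((E ∪ E' : Finset _) : Set (Fin q → MvPolynomial (Fin 2) k)) := by
          refine Submodule.span_mono ?_
          rw [Finset.coe_union]
          exact Set.subset_union_right
        exact hm (hks E' w (hspan' hw))

include hX in
theorem inc_ge (n : ℕ) (z : Fin q → Fin q → MvPolynomial (Fin 2) k) (hz : ∀ i, z i ∈ Sat B n)
    (hdet : (Matrix.of z).det ≠ 0) : q ≤ inc B n := by
  obtain ⟨E, hE, hspan⟩ := gens hX n
  have h1 : LinearIndependent (MvPolynomial (Fin 2) k) z :=
    Matrix.linearIndependent_rows_of_det_ne_zero hdet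
  set S := Submodule.span (MvPolynomial (Fin 2) k)
    (E : Set (Fin q → MvPolynomial (Fin 2) k)) with hS
  have h2 : LinearIndependent (MvPolynomial (Fin 2) k) (fun i => (⟨z i, hspan _ (hz i)⟩ : S)) := by
    apply LinearIndependent.of_comp S.subtype
    exact h1
  have h3 : Module.Finite (MvPolynomial (Fin 2) k) S :=
    Module.Finite.span_of_finite _ E.finite_toSet
  have h4 := h2.fintype_card_le_finrank
  rw [Fintype.card_fin] at h4
  have h5 : finrank (MvPolynomial (Fin 2) k) S ≤ E.card := finrank_span_finset_le_card E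
  omega

include hX in
theorem gen_eq {n : ℕ} (h : inc B n = q) : gen B n = Sat B (n + 1) := by
  have h1 := inc_mono hX (Nat.le_succ n)
  have h2 := inc_le hX (n + 1)
  have h3 := gen_dim hX n
  have h4 := pd_le hX n
  have h5 := pd_le hX (n + 1)
  have hfin1 := Sat_fin (B := B) (n + 1)
  refine Submodule.eq_of_le_of_finrank_eq (gen_le hX n) ?_
  have hsd : finrank k (Sat B (n + 1)) = sd B (n + 1) := rfl
  rw [hsd]
  rw [pd_succ] at h5
  unfold inc at h h1 h2
  rw [Nat.succ_eq_add_one, pd_succ] at h1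
  rw [pd_succ] at h2
  omega

include hom hX in
theorem step_eq {n : ℕ} (h : inc B n = q) (hB : B n = Sat B n) : B (n + 1) = Sat B (n + 1) := by
  refine le_antisymm (B_le_Sat hom hX (n + 1)) ?_
  rw [← gen_eq hX h]
  refine sup_le ?_ ?_
  · rintro y ⟨u, hu, rfl⟩
    rw [SetLike.mem_coe, ← hB] at hu
    exact hX 0 n u hu
  · rintro y ⟨u, hu, rfl⟩
    rw [SetLike.mem_coe, ← hB] at hu
    exact hX 1 n u hu

include hom hX in
theorem later_eq {n : ℕ} (h : inc B n = q) (hB : B n = Sat B n) : ∀ n' ≥ n, B n' = Sat B n' := by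
  intro n' hn'
  induction n', hn' using Nat.le_induction with
  | base => exact hB
  | succ m hm ih =>
    refine step_eq hom hX ?_ ih
    have h1 := inc_mono hX hm
    have h2 := inc_le hX m
    omega

include hX in
theorem event_aux (g : ℕ) (h : inc B g = q) (J : ℕ)
    (hJ : ∀ z ∈ Sat B g, ∀ j ≥ J, ∀ a b, a + b = j → mon k a b • z ∈ B (g + j)) :
    ∀ j, ∀ z ∈ Sat B (g + j), ∀ i, J ≤ i + j → ∀ a b, a + b = i → mon k a b • z ∈ B (g + j + i) := by
  intro j
  induction j with
  | zero =>
    intro z hz i hi a b hab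
    exact hJ z hz i (by omega) a b hab
  | succ j ih =>
    intro z hz i hi a b hab
    have h1 : inc B (g + j) = q := by
      have h1 := inc_mono hX (Nat.le_add_right g j)
      have h2 := inc_le hX (g + j)
      omega
    have h2 : z ∈ gen B (g + j) := by
      rw [gen_eq hX h1]
      exact hz
    unfold gen at h2
    obtain ⟨y0, ⟨u0, hu0, rfl⟩, y1, ⟨u1, hu1, rfl⟩, rfl⟩ := Submodule.mem_sup.1 h2
    rw [smul_add, mX_apply, mX_apply, ← mul_smul, ← mul_smul]
    have h3 : mon k a b * (X 0 : MvPolynomial (Fin 2) k) = mon k (a + 1) b := by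
      unfold mon; ring
    have h4 : mon k a b * (X 1 : MvPolynomial (Fin 2) k) = mon k a (b + 1) := by
      unfold mon; ring
    rw [h3, h4, show g + (j + 1) + i = g + j + (i + 1) by ring]
    exact Submodule.add_mem _ (ih u0 hu0 (i + 1) (by omega) (a + 1) b (by omega))
      (ih u1 hu1 (i + 1) (by omega) a (b + 1) (by omega))

include hom hX in
theorem event (g : ℕ) (h : inc B g = q) : ∃ n0, ∀ n ≥ n0, B n = Sat B n := by
  have hfin := Sat_fin (B := B) g
  obtain ⟨E, hE⟩ := (Submodule.fg_iff_finiteDimensional _).2 hfin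
  have h1 : ∃ J, ∀ z ∈ E, ∀ j ≥ J, ∀ a b, a + b = j → mon k a b • z ∈ B (g + j) := by
    have h2 : ∀ z ∈ E, ∃ J, ∀ j ≥ J, ∀ a b, a + b = j → mon k a b • z ∈ B (g + j) := by
      intro z hz
      have h3 : z ∈ Sat B g := by
        rw [← hE]
        exact Submodule.subset_span hz
      exact h3.2
    choose! Jf hJf using h2
    refine ⟨E.sup Jf, fun z hz j hj a b hab => hJf z hz j ?_ a b hab⟩
    exact (Finset.le_sup hz).trans hj
  obtain ⟨J, hJ⟩ := h1
  have h2 : ∀ z ∈ Sat B g, ∀ j ≥ J, ∀ a b, a + b = j → mon k a b • z ∈ B (g + j) := by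
    intro z hz j hj a b hab
    rw [← hE] at hz
    induction hz using Submodule.span_induction with
    | mem x hx => exact hJ x hx j hj a b hab
    | zero => rw [smul_zero]; exact Submodule.zero_mem _
    | add x y _ _ hx hy => rw [smul_add]; exact Submodule.add_mem _ hx hy
    | smul c x _ hx => rw [smul_comm]; exact Submodule.smul_mem _ _ hx
  refine ⟨g + J, fun n hn => ?_⟩
  obtain ⟨j, rfl⟩ : ∃ j, n = g + j := ⟨n - g, by omega⟩
  refine le_antisymm (B_le_Sat hom hX _) fun z hz => ?_
  have h3 := event_aux hX g h J h2 j z hz 0 (by omega) 0 0 rfl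
  simpa [mon] using h3

end Satsec

theorem sum_le (b m : ℕ) : ∑ j ∈ Finset.range m, (if b ≤ j then 1 else 0) = m - b := by
  induction m with
  | zero => simp
  | succ m ih =>
    rw [Finset.sum_range_succ, ih]
    split_ifs with h <;> omega

theorem sum_lt (c q : ℕ) (h : c ≤ q) : ∑ i : Fin q, (if i.1 < c then 1 else 0) = c := by
  rw [Fin.sum_univ_eq_sum_range (fun i => if i < c then 1 else 0) q, ← Finset.card_filter]
  have : (Finset.range q).filter (fun i => i < c) = Finset.range c := by
    ext i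
    simp only [Finset.mem_filter, Finset.mem_range]
    omega
  rw [this, Finset.card_range]

/-- A3 (two variables): a graded submodule `B` of full rank of `k[Y_0,Y_1]^q` is contained in a free one
with generators of degrees `b_i` (the saturation), with equality in large degrees; `b_i ≤ g` if
`B` has `q` independent vectors of degree `g`. -/
theorem SPLIT (q : ℕ) (B : ℕ → Submodule k (Fin q → MvPolynomial (Fin 2) k))
    (hom : ∀ n, ∀ z ∈ B n, ∀ i, (z i).IsHomogeneous n)
    (hX : ∀ (i : Fin 2) n z, z ∈ B n → (X i : MvPolynomial (Fin 2) k) • z ∈ B (n + 1))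
    (g : ℕ) (z : Fin q → Fin q → MvPolynomial (Fin 2) k) (hz : ∀ i, z i ∈ B g)
    (hdet : (Matrix.of z).det ≠ 0) :
    ∃ b : Fin q → ℕ, (∀ i, b i ≤ g) ∧
      (∀ n, Module.finrank k (B n) ≤ ∑ i, (n + 1 - b i)) ∧
      (∀ᶠ n in Filter.atTop, Module.finrank k (B n) = ∑ i, (n + 1 - b i)) ∧
      (∀ n, (∀ i, b i ≤ n) → Module.finrank k (B n) = ∑ i, (n + 1 - b i) →
        ∀ n' ≥ n, Module.finrank k (B n') = ∑ i, (n' + 1 - b i)) := by
  have hg : inc B g = q := le_antisymm (inc_le hX g)
    (inc_ge hX g z (fun i => B_le_Sat hom hX g (hz i)) hdet)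
  have hex : ∀ i : Fin q, ∃ n, i.1 < inc B n := fun i => ⟨g, by rw [hg]; exact i.2⟩
  classical
  let b : Fin q → ℕ := fun i => Nat.find (hex i)
  have hb : ∀ (i : Fin q) n, b i ≤ n ↔ i.1 < inc B n := by
    intro i n
    constructor
    · intro h
      exact lt_of_lt_of_le (Nat.find_spec (hex i)) (inc_mono hX h)
    · intro h
      exact Nat.find_min' (hex i) h
  have hsum : ∀ n, ∑ i, (n + 1 - b i) = sd B n := by
    intro n
    rw [← sum_inc hX n]
    have h1 : ∀ i : Fin q, n + 1 - b i = ∑ j ∈ Finset.range (n + 1), (if b i ≤ j then 1 else 0) :=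
      fun i => (sum_le (b i) (n + 1)).symm
    rw [Finset.sum_congr rfl fun i _ => h1 i, Finset.sum_comm]
    refine Finset.sum_congr rfl fun j _ => ?_
    rw [← sum_lt (inc B j) q (inc_le hX j)]
    refine Finset.sum_congr rfl fun i _ => ?_
    simp only [hb]
  refine ⟨b, fun i => (hb i g).2 (by rw [hg]; exact i.2), ?_, ?_, ?_⟩
  · intro n
    rw [hsum]
    have := Sat_fin (B := B) n
    exact Submodule.finrank_mono (B_le_Sat hom hX n)
  · obtain ⟨n0, hn0⟩ := event hom hX g hg
    filter_upwards [Filter.eventually_ge_atTop n0] with n hn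
    rw [hsum, hn0 n hn]
    rfl
  · intro n hn hdim n' hn'
    rw [hsum] at hdim ⊢
    have h1 : inc B n = q := by
      refine le_antisymm (inc_le hX n) ?_
      by_contra hcon
      push Not at hcon
      have := (hb ⟨inc B n, hcon⟩ n).1 (hn _)
      exact lt_irrefl _ this
    have hfin := Sat_fin (B := B) n
    have h2 : B n = Sat B n := Submodule.eq_of_le_of_finrank_eq (B_le_Sat hom hX n) hdim
    rw [later_eq hom hX h1 h2 n' hn']
    rfl

end Pool.Agent.H25R2.Split2
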